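import Pool.Agent.H40.G11
import Pool.Agent.H40.Zr12

set_option autoImplicit false
set_option synthInstance.maxSize 2000

namespace Pool.Agent.Results.MP_b83852_lc.Model

open Pool.Agent.H40.Bspt Pool.Agent.H40.Jz

variable {M : Type} (E : M → M → Prop)

/-- the union of a countable family of countable sets is countable -/
def CUC : Prop :=
  ∀ A W, Ctbl E A → (∀ X, E X A → Ctbl E X) → (∀ z, E z W ↔ ∃ X, E X A ∧ E z X) → Ctbl E W

/-- `(X, T)` has a countable dense subset -/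
def Separable (X T : M) : Prop :=
  ∃ D, Sub E D X ∧ Ctbl E D ∧ ∀ U, E U T → (∃ x, E x U) → ∃ x, E x D ∧ E x U

open Pool.Agent.H40.Zt Pool.Agent.H40.Gn Classical in
theorem result : ∃ (M : Type) (E : M → M → Prop) (ν : ℕ → M), IsZF E ∧ Numer E ν ∧
    Nonempty (Reals E) ∧
    (∀ (ℛ : Reals E) (X T : M), IsTop E X T → Compact E X T → Metrizable ℛ X T → Separable E X T) ∧
    ¬ CUC E := by
  obtain ⟨M, E, Q, S⟩ := ex_vm
  have h := Q.zf
  refine ⟨M, E, Q.ν, h, Q.num, ⟨Q.reals⟩, fun ℛ X T tp c ⟨δ, a, b, s, t, o⟩ => ?_, fun c => ?_⟩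
  · obtain ⟨d, _, e⟩ := intl2_r ℛ a
    have := @tR2 _ _ ℛ d _
    simp only [← e, Subtype.forall, Subtype.mk.injEq] at b s t o
    have d0 : ∀ x y, E x X → E y X → (d x y = 0 ↔ x = y) := fun x y a c => b x a y c
    have dt : ∀ x y z, E x X → E y X → E z X → d x z ≤ d x y + d y z := fun x y z a b c =>
      t x a y b z c
    have ds : ∀ x y, E x X → E y X → d x y = d y x := fun x y a b => s x a y b
    obtain ⟨c', _, c1, -, c2⟩ := ex_c ℛ h
    have := @tR _ _ ℛ c' _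
    obtain ⟨w, hw⟩ := h.omega'
    obtain ⟨Z, hZ⟩ := ex_prod h X X
    obtain ⟨r, hr⟩ := rel h (fun p n => ∃ x u, p = pr E x u ∧ d x u < c' n) Z w
    have k : ∀ x u n p, IsPair E p x u → App E r p n → d x u < c' n := fun x u n p a b => by
      obtain ⟨y, v, e, f⟩ := ((hr _ _).1 b).2.2
      obtain ⟨rfl, rfl⟩ := h.pair_inj a (e ▸ pr_sp h y v)
      exact f
    obtain ⟨K, Φ, k1, k2⟩ := S.so X r Z
    obtain ⟨D, d1, d2, d3⟩ := sep_of h d ds dt (fun x y a b => k1 x a y b) tp c d0 o (App E Φ)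
      fun ε a x b => by
        obtain ⟨n, e, f⟩ := c2 _ (half_pos a)
        obtain ⟨F, ⟨m, g, g1, g2⟩, i⟩ := tot_bd h d dt c (fun x a => (d0 x x a a).2 rfl) o _ (c1 n e)
        obtain ⟨g', hg⟩ := rel h (App E g) m F
        refine (k2 g' n e (fun x a => ?_) x b).imp fun α j => ⟨j.1, j.2.1, fun u l p v q s => ?_⟩
        · obtain ⟨u, b, c, f⟩ := i x a
          obtain ⟨j, l, -⟩ := g2.2 u b
          obtain ⟨y, -, p⟩ := g2.1 j l.1
          exact ⟨j, nel h g1 l.1, u, c, ⟨(hg _ _).2 ⟨l.1, b, l.2⟩, fun v _ q =>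
            (p v ((hg _ _).1 q).2).trans (p u ⟨b, l.2⟩).symm⟩, _, hZ _ _ a c, pr_sp h _ _,
            (hr _ _).2 ⟨hZ _ _ a c, (hw n).2 e, x, u, rfl, ds x u a c ▸ f⟩⟩
        · obtain ⟨y, y1, ⟨_, -, y2, y3⟩, _, -, y4, y5⟩ := j.2.2 u l p v q s
          linarith [k _ _ _ _ y2 y3, k _ _ _ _ y4 y5, dt u y v l y1 q, ds y v y1 q]
    refine ⟨D, d1, d2, fun U a ⟨x, b⟩ => ?_⟩
    have e := tp.1 U a x b
    obtain ⟨ε, f, g⟩ := ((o U).1 a).2 x e b
    obtain ⟨p, i, j⟩ := d3 x e ε f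
    exact ⟨p, i, g p (d1 p i) (ds p x (d1 p i) e ▸ j)⟩
  · obtain ⟨A, W, a, b, d⟩ := S.un
    have k : ∀ X, X = A ∨ E X A → Ctbl E X := fun X e => (b X e).elim fun f g =>
      ctbl_of h (App E f) g.1 fun x y m _ _ => g.2 x y m
    obtain ⟨φ, ⟨f, g⟩, i⟩ := c A W (k A (Or.inl rfl)) (fun X e => k X (Or.inr e)) a
    exact d f ⟨fun x e => ⟨_, (φ ⟨x, e⟩).2, (g ⟨x, e⟩ _).2 rfl⟩, fun x e y j m _ l n =>
      congrArg Subtype.val (i (Subtype.ext (((g ⟨x, e⟩ m).1 l).symm.trans ((g ⟨y, j⟩ m).1 n))))⟩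

end Pool.Agent.Results.MP_b83852_lc.Model
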